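import Mathlib
import Pool.Agent.Work.MP_4bb68c_pr.Defs
import Pool.Agent.Work.MP_4bb68c_pr.Clocks
import Pool.Agent.Work.MP_4bb68c_pr.Evol
import Pool.Agent.Work.MP_4bb68c_pr.Family
import Pool.Agent.Work.MP_4bb68c_d1.Slopes

/-!
# Ballistic deposition on `ℤ` seen from the origin has many stationary laws

In dimension one, for every slope `v` with `|v| ≤ 1 / 100` there is a stationary probability
measure whose increments are translation invariant, whose heights are integrable and whose mean
slope is `v`.

The proof compares the growth from the flat and from the slope-one initial function: the flat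
growth speed is at least `1.9221` (certificate `LCert`, windows of the dual process), the growth
speed from the initial function `x ↦ x` is at most `2.9098` (certificate `UCert`, exponential
weights of the dual process), and `2.9098 < 1.9221 + 1`.
-/

open MeasureTheory ProbabilityTheory Filter Topology
open Pool.MP4bb68c

namespace Pool.Agent.Results.MP_4bb68c_pr.NonUniquenessDimOne

/-- Ballistic deposition on `ℤ` is well defined and has, for every slope `v` with `|v| ≤ 1 / 100`,
a stationary probability measure `μ v` with translation invariant increments, integrable heights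
and mean slope `v`; these measures are pairwise distinct. -/
theorem result :
    (∃ (Ω : Type) (_ : MeasurableSpace Ω) (P : Measure Ω) (upd : Ω → Site 1 → Set ℝ),
      IsProbabilityMeasure P ∧ IsPoissonClocks P upd ∧
      ∀ᵐ ω ∂P, ∀ f : Height 1, ∃ h : ℝ → Height 1, IsEvolution (upd ω) f h ∧
        ∀ h' : ℝ → Height 1, IsEvolution (upd ω) f h' → ∀ t, 0 ≤ t → h' t = h t) ∧
    ∃ μ : ℝ → Measure (Height 1),
      Set.InjOn μ {v | |v| ≤ 1 / 100} ∧
      ∀ v : ℝ, |v| ≤ 1 / 100 →
        IsProbabilityMeasure (μ v) ∧ IsStationary (μ v) ∧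
        (∀ y : Site 1, (μ v).map (fun g x => g (x + y) - g y) = μ v) ∧
        ∀ x : Site 1, Integrable (fun g : Height 1 => (g x : ℝ)) (μ v) ∧
          ∫ g, (g x : ℝ) ∂(μ v) = v * x 0 := by
  constructor
  · obtain ⟨Ω, hΩ, P, upd, hP, hclk⟩ := exists_clocks 1
    exact ⟨Ω, hΩ, P, upd, hP, hclk, ae_existsUnique_evolution hclk⟩
  · have h1 : ∀ v : ℝ, ∃ μ : Measure (Height 1), |v| ≤ 1 / 100 → HasSlope μ (fun _ => v) := by
      intro v
      by_cases hv : |v| ≤ 1 / 100
      · obtain ⟨μ, hμ⟩ := Pool.MP4bb68cOne.exists_slopes_one (fun _ => v) (by simpa using hv)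
        exact ⟨μ, fun _ => hμ⟩
      · exact ⟨0, fun h => absurd h hv⟩
    choose μ hμ using h1
    have hmean : ∀ v, |v| ≤ 1 / 100 → ∀ x : Site 1, ∫ g, (g x : ℝ) ∂(μ v) = v * x 0 := by
      intro v hv x
      rw [(hμ v hv).mean x]
      simp
    refine ⟨μ, ?_, fun v hv => ⟨(hμ v hv).prob, (hμ v hv).stat, fun y => (hμ v hv).inv y,
      fun x => ⟨(hμ v hv).int x, hmean v hv x⟩⟩⟩
    intro v hv v' hv' heq
    have e1 := hmean v hv (fun _ => 1)
    have e2 := hmean v' hv' (fun _ => 1)
    rw [heq, e2] at e1
    simpa using e1.symm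

end Pool.Agent.Results.MP_4bb68c_pr.NonUniquenessDimOne
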